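import Pool.Agent.H56.G3.TR

/-!
# Row RE: if the phases are aligned at all the pieces then they rotate together
-/

set_option autoImplicit false

namespace Pool.Agent.H23.G3

open Finset Pool.Agent.H6.N4D Pool.Agent.H93.EB Pool.Agent.H93.GS Pool.Agent.H56.G3

private lemma re_unit (c u : ℂ) (hu : ‖u‖ = 1) (U : ℂ) (hU : ‖U‖ = 1) :
    ‖c‖ * ‖c / ‖c‖ * u - U‖ ^ 2 = 2 * ‖c‖ - 2 * (c * u * (starRingEnd ℂ) U).re := by
  by_cases hc : c = 0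
  · simp [hc]
  have hn : ‖c‖ ≠ 0 := norm_ne_zero_iff.mpr hc
  have hv : ‖c / ‖c‖ * u‖ = 1 := by
    rw [norm_mul, norm_div, hu, Complex.norm_real, norm_norm, div_self hn, one_mul]
  have h1 : ‖c / ‖c‖ * u - U‖ ^ 2 =
      ‖c / ‖c‖ * u‖ ^ 2 + ‖U‖ ^ 2 - 2 * ((c / ‖c‖ * u) * (starRingEnd ℂ) U).re := by
    rw [← Complex.normSq_eq_norm_sq, ← Complex.normSq_eq_norm_sq, ← Complex.normSq_eq_norm_sq,
      Complex.normSq_sub]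
  have h2 : ‖c‖ * ((c / ‖c‖ * u) * (starRingEnd ℂ) U).re =
      (c * u * (starRingEnd ℂ) U).re := by
    rw [← Complex.re_ofReal_mul]
    congr 1
    have hn' : ((‖c‖ : ℝ) : ℂ) ≠ 0 := by exact_mod_cast hn
    field_simp
  rw [h1, hv, hU]
  linear_combination (-2) * h2

private lemma re_phase (s : Finset ℕ) (c u : ℕ → ℂ) (hu : ∀ i, ‖u i‖ = 1) :
    ∃ U : ℂ, ‖U‖ = 1 ∧ ∑ i ∈ s, ‖c i‖ * ‖c i / ‖c i‖ * u i - U‖ ^ 2 =
      2 * ∑ i ∈ s, ‖c i‖ - 2 * ‖∑ i ∈ s, c i * u i‖ := by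
  set Z := ∑ i ∈ s, c i * u i with hZ
  obtain ⟨U, hU, hUZ⟩ : ∃ U : ℂ, ‖U‖ = 1 ∧ (Z * (starRingEnd ℂ) U).re = ‖Z‖ := by
    by_cases h0 : Z = 0
    · exact ⟨1, by simp, by simp [h0]⟩
    · have hn : ‖Z‖ ≠ 0 := norm_ne_zero_iff.mpr h0
      refine ⟨Z / ‖Z‖, ?_, ?_⟩
      · rw [norm_div, Complex.norm_real, norm_norm, div_self hn]
      · have hn' : ((‖Z‖ : ℝ) : ℂ) ≠ 0 := by exact_mod_cast hn
        have h1 : Z * (starRingEnd ℂ) (Z / ‖Z‖) = ((‖Z‖ : ℝ) : ℂ) := by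
          rw [map_div₀, Complex.conj_ofReal, ← mul_div_assoc, Complex.mul_conj,
            Complex.normSq_eq_norm_sq]
          push_cast
          field_simp
        rw [h1, Complex.ofReal_re]
  refine ⟨U, hU, ?_⟩
  rw [Finset.sum_congr rfl (fun i _ => re_unit (c i) (u i) (hu i) U hU), Finset.sum_sub_distrib,
    ← Finset.mul_sum, ← Finset.mul_sum, ← Complex.re_sum, ← Finset.sum_mul, ← hZ, hUZ]

private lemma re_sq (x y V : ℂ) : ‖x - y‖ ^ 2 ≤ 2 * ‖x - V‖ ^ 2 + 2 * ‖y - V‖ ^ 2 := by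
  have h1 : ‖x - y‖ ≤ ‖x - V‖ + ‖y - V‖ := by
    have h2 : x - y = (x - V) - (y - V) := by ring
    rw [h2]
    exact norm_sub_le _ _
  nlinarith [norm_nonneg (x - y), norm_nonneg (x - V), norm_nonneg (y - V),
    sq_nonneg (‖x - V‖ - ‖y - V‖)]

private lemma re_prod (v v' U U' : ℂ) (hv' : ‖v'‖ = 1) (hU : ‖U‖ = 1) :
    ‖v * (starRingEnd ℂ) v' - U * (starRingEnd ℂ) U'‖ ^ 2 ≤
      2 * ‖v - U‖ ^ 2 + 2 * ‖v' - U'‖ ^ 2 := by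
  have h1 : v * (starRingEnd ℂ) v' - U * (starRingEnd ℂ) U' =
      (v - U) * (starRingEnd ℂ) v' + U * (starRingEnd ℂ) (v' - U') := by
    rw [map_sub]; ring
  have h2 : ‖v * (starRingEnd ℂ) v' - U * (starRingEnd ℂ) U'‖ ≤ ‖v - U‖ + ‖v' - U'‖ := by
    rw [h1]
    refine (norm_add_le _ _).trans ?_
    rw [norm_mul, norm_mul, Complex.norm_conj, Complex.norm_conj, hv', hU, mul_one, one_mul]
  nlinarith [norm_nonneg (v * (starRingEnd ℂ) v' - U * (starRingEnd ℂ) U'), norm_nonneg (v - U),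
    norm_nonneg (v' - U'), sq_nonneg (‖v - U‖ - ‖v' - U'‖)]

theorem pf_RE : T_RE := by
  intro s c a P ℓ n σ hs hP hσ h
  have hU := fun j : ℕ => re_phase s c (fun i => ee (a i * ((n + j * ℓ : ℕ) : ℝ)))
    (fun i => norm_ee _)
  choose U hU1 hU2 using hU
  set m := ∑ i ∈ s, ‖c i‖ with hm
  have hm0 : 0 ≤ m := Finset.sum_nonneg fun i _ => norm_nonneg _
  have hA : ∀ j < P, ∑ i ∈ s, ‖c i‖ * ‖c i / ‖c i‖ * ee (a i * ((n + j * ℓ : ℕ) : ℝ)) - U j‖ ^ 2 ≤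
      2 * σ := by
    intro j hj
    rw [hU2 j]
    linarith [h j hj]
  have hB : ∀ j < P, ∑ i ∈ s, ‖c i‖ *
      ‖ee (a i * ((j * ℓ : ℕ) : ℝ)) - U j * (starRingEnd ℂ) (U 0)‖ ^ 2 ≤ 8 * σ := by
    intro j hj
    have h1 : ∀ i ∈ s, ‖c i‖ * ‖ee (a i * ((j * ℓ : ℕ) : ℝ)) - U j * (starRingEnd ℂ) (U 0)‖ ^ 2 ≤
        2 * (‖c i‖ * ‖c i / ‖c i‖ * ee (a i * ((n + j * ℓ : ℕ) : ℝ)) - U j‖ ^ 2) +
        2 * (‖c i‖ * ‖c i / ‖c i‖ * ee (a i * ((n + 0 * ℓ : ℕ) : ℝ)) - U 0‖ ^ 2) := by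
      intro i _
      by_cases hc : c i = 0
      · simp [hc]
      have hn : ‖c i‖ ≠ 0 := norm_ne_zero_iff.mpr hc
      have hp : ‖c i / ‖c i‖‖ = 1 := by
        rw [norm_div, Complex.norm_real, norm_norm, div_self hn]
      have h2 := re_prod (c i / ‖c i‖ * ee (a i * ((n + j * ℓ : ℕ) : ℝ)))
        (c i / ‖c i‖ * ee (a i * ((n + 0 * ℓ : ℕ) : ℝ))) (U j) (U 0)
        (by rw [norm_mul, hp, norm_ee, one_mul]) (hU1 j)
      have h3 : c i / ‖c i‖ * ee (a i * ((n + j * ℓ : ℕ) : ℝ)) *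
          (starRingEnd ℂ) (c i / ‖c i‖ * ee (a i * ((n + 0 * ℓ : ℕ) : ℝ))) =
          ee (a i * ((j * ℓ : ℕ) : ℝ)) := by
        have h4 : a i * ((n + j * ℓ : ℕ) : ℝ) =
            a i * ((j * ℓ : ℕ) : ℝ) + a i * ((n + 0 * ℓ : ℕ) : ℝ) := by
          push_cast; ring
        have h5 : c i / ‖c i‖ * (starRingEnd ℂ) (c i / ‖c i‖) = 1 := by
          rw [Complex.mul_conj, Complex.normSq_eq_norm_sq, hp]; norm_num
        have h6 : ee (a i * ((n + 0 * ℓ : ℕ) : ℝ)) *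
            (starRingEnd ℂ) (ee (a i * ((n + 0 * ℓ : ℕ) : ℝ))) = 1 := by
          rw [Complex.mul_conj, Complex.normSq_eq_norm_sq, norm_ee]; norm_num
        rw [h4, ee_add, map_mul]
        linear_combination (ee (a i * ((j * ℓ : ℕ) : ℝ)) *
          (ee (a i * ((n + 0 * ℓ : ℕ) : ℝ)) *
            (starRingEnd ℂ) (ee (a i * ((n + 0 * ℓ : ℕ) : ℝ))))) * h5 +
          ee (a i * ((j * ℓ : ℕ) : ℝ)) * h6
      rw [h3] at h2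
      nlinarith [mul_le_mul_of_nonneg_left h2 (norm_nonneg (c i))]
    calc _ ≤ ∑ i ∈ s,
          (2 * (‖c i‖ * ‖c i / ‖c i‖ * ee (a i * ((n + j * ℓ : ℕ) : ℝ)) - U j‖ ^ 2) +
          2 * (‖c i‖ * ‖c i / ‖c i‖ * ee (a i * ((n + 0 * ℓ : ℕ) : ℝ)) - U 0‖ ^ 2)) :=
          Finset.sum_le_sum h1
      _ = 2 * ∑ i ∈ s, ‖c i‖ * ‖c i / ‖c i‖ * ee (a i * ((n + j * ℓ : ℕ) : ℝ)) - U j‖ ^ 2 +
          2 * ∑ i ∈ s, ‖c i‖ * ‖c i / ‖c i‖ * ee (a i * ((n + 0 * ℓ : ℕ) : ℝ)) - U 0‖ ^ 2 := by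
          rw [Finset.sum_add_distrib, ← Finset.mul_sum, ← Finset.mul_sum]
      _ ≤ 8 * σ := by linarith [hA j hj, hA 0 (by omega)]
  have hC : ∀ j < P, ∑ k ∈ s, ‖c k‖ * ∑ i ∈ s,
      ‖c i‖ * ‖ee ((a i - a k) * ((j * ℓ : ℕ) : ℝ)) - 1‖ ^ 2 ≤ 32 * m * σ := by
    intro j hj
    have h1 : ∀ k ∈ s, ‖c k‖ * ∑ i ∈ s,
        ‖c i‖ * ‖ee ((a i - a k) * ((j * ℓ : ℕ) : ℝ)) - 1‖ ^ 2 ≤
        ‖c k‖ * (2 * ∑ i ∈ s, ‖c i‖ *
          ‖ee (a i * ((j * ℓ : ℕ) : ℝ)) - U j * (starRingEnd ℂ) (U 0)‖ ^ 2) +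
        2 * m * (‖c k‖ * ‖ee (a k * ((j * ℓ : ℕ) : ℝ)) - U j * (starRingEnd ℂ) (U 0)‖ ^ 2) := by
      intro k _
      have h2 : ∀ i ∈ s, ‖c i‖ * ‖ee ((a i - a k) * ((j * ℓ : ℕ) : ℝ)) - 1‖ ^ 2 ≤
          2 * (‖c i‖ * ‖ee (a i * ((j * ℓ : ℕ) : ℝ)) - U j * (starRingEnd ℂ) (U 0)‖ ^ 2) +
          ‖c i‖ * (2 * ‖ee (a k * ((j * ℓ : ℕ) : ℝ)) - U j * (starRingEnd ℂ) (U 0)‖ ^ 2) := by
        intro i _
        have h3 : ‖ee ((a i - a k) * ((j * ℓ : ℕ) : ℝ)) - 1‖ =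
            ‖ee (a i * ((j * ℓ : ℕ) : ℝ)) - ee (a k * ((j * ℓ : ℕ) : ℝ))‖ := by
          have h4 : ee (a i * ((j * ℓ : ℕ) : ℝ)) - ee (a k * ((j * ℓ : ℕ) : ℝ)) =
              (ee ((a i - a k) * ((j * ℓ : ℕ) : ℝ)) - 1) * ee (a k * ((j * ℓ : ℕ) : ℝ)) := by
            rw [sub_mul, ← ee_add, one_mul]
            congr 2
            ring
          rw [h4, norm_mul, norm_ee, mul_one]
        rw [h3]
        nlinarith [mul_le_mul_of_nonneg_left (re_sq (ee (a i * ((j * ℓ : ℕ) : ℝ)))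
          (ee (a k * ((j * ℓ : ℕ) : ℝ))) (U j * (starRingEnd ℂ) (U 0))) (norm_nonneg (c i))]
      have h5 := Finset.sum_le_sum h2
      rw [Finset.sum_add_distrib, ← Finset.mul_sum, ← Finset.sum_mul, ← hm] at h5
      have h6 := mul_le_mul_of_nonneg_left h5 (norm_nonneg (c k))
      refine h6.trans (le_of_eq ?_)
      ring
    have h7 := Finset.sum_le_sum h1
    rw [Finset.sum_add_distrib, ← Finset.sum_mul, ← Finset.mul_sum, ← hm] at h7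
    have h8 := mul_le_mul_of_nonneg_left (hB j hj) hm0
    refine h7.trans ?_
    nlinarith [h8]
  by_contra hcon
  push Not at hcon
  have hT : ∑ k ∈ s, ‖c k‖ * ∑ j ∈ range P, ∑ i ∈ s,
      ‖c i‖ * ‖ee ((a i - a k) * ((j * ℓ : ℕ) : ℝ)) - 1‖ ^ 2 ≤ m * (32 * σ * P) := by
    have h1 : ∑ k ∈ s, ‖c k‖ * ∑ j ∈ range P, ∑ i ∈ s,
        ‖c i‖ * ‖ee ((a i - a k) * ((j * ℓ : ℕ) : ℝ)) - 1‖ ^ 2 =
        ∑ j ∈ range P, ∑ k ∈ s, ‖c k‖ * ∑ i ∈ s,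
          ‖c i‖ * ‖ee ((a i - a k) * ((j * ℓ : ℕ) : ℝ)) - 1‖ ^ 2 := by
      rw [Finset.sum_comm]
      refine Finset.sum_congr rfl fun k _ => ?_
      rw [Finset.mul_sum]
    rw [h1]
    calc _ ≤ ∑ j ∈ range P, 32 * m * σ :=
          Finset.sum_le_sum fun j hj => hC j (Finset.mem_range.mp hj)
      _ = m * (32 * σ * P) := by
          rw [Finset.sum_const, Finset.card_range, nsmul_eq_mul]; ring
  rcases hm0.eq_or_lt with h0 | h0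
  · obtain ⟨k, hk⟩ := hs
    have h1 := hcon k hk
    have h2 : ∀ i ∈ s, ‖c i‖ = 0 := fun i hi =>
      (Finset.sum_eq_zero_iff_of_nonneg fun i _ => norm_nonneg _).mp h0.symm i hi
    have h3 : ∑ j ∈ range P, ∑ i ∈ s,
        ‖c i‖ * ‖ee ((a i - a k) * ((j * ℓ : ℕ) : ℝ)) - 1‖ ^ 2 = 0 := by
      refine Finset.sum_eq_zero fun j _ => Finset.sum_eq_zero fun i hi => ?_
      rw [h2 i hi, zero_mul]
    rw [h3] at h1
    have h4 : 0 ≤ 32 * σ * P := by positivity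
    linarith
  · obtain ⟨k, hk, hck⟩ : ∃ k ∈ s, 0 < ‖c k‖ := by
      by_contra hne
      push Not at hne
      have : m ≤ 0 := Finset.sum_nonpos hne
      linarith
    have h1 : ∑ k ∈ s, ‖c k‖ * (32 * σ * P) < ∑ k ∈ s, ‖c k‖ * ∑ j ∈ range P, ∑ i ∈ s,
        ‖c i‖ * ‖ee ((a i - a k) * ((j * ℓ : ℕ) : ℝ)) - 1‖ ^ 2 := by
      refine Finset.sum_lt_sum (fun i hi => mul_le_mul_of_nonneg_left (hcon i hi).le
        (norm_nonneg _)) ⟨k, hk, mul_lt_mul_of_pos_left (hcon k hk) hck⟩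
    rw [← Finset.sum_mul, ← hm] at h1
    linarith

end Pool.Agent.H23.G3
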