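import Pool.Agent.H56.G3.TR

/-!
# Row RP: on a regular window the atoms of a cell are aligned at all the pieces
-/

set_option autoImplicit false

namespace Pool.Agent.H23.G3

open Finset Pool.Agent.H6.N4D Pool.Agent.H93.EB Pool.Agent.H93.GS Pool.Agent.H56.G3

private lemma rp_nd (x : ℝ) (t : ℕ) : nd (x * t) ≤ t * nd x := by
  obtain ⟨k, hk⟩ := exists_int x
  have h := nd_le (x * t) (k * t)
  have h1 : |x * t - ((k * t : ℤ) : ℝ)| = t * nd x := by
    rw [← hk]
    have h2 : x * t - ((k * t : ℤ) : ℝ) = (x - k) * t := by push_cast; ring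
    rw [h2, abs_mul, Nat.abs_cast, mul_comm]
  rwa [h1] at h

/-- splitting a sum over the atoms into the cells -/
private lemma rp_split {E : Type} [AddCommMonoid E] (k l : ℕ) (c : ℕ → ℂ) (τ : ℕ → ℕ)
    (F : ℕ → E) (hF : ∀ i < k, c i = 0 → F i = 0) (hτ : ∀ i < k, c i ≠ 0 → τ i < l) :
    ∑ i ∈ range k, F i =
      ∑ s ∈ range l, ∑ i ∈ (range k).filter (fun i => c i ≠ 0 ∧ τ i = s), F i := by
  have h1 : ∑ i ∈ range k, F i = ∑ i ∈ (range k).filter (fun i => c i ≠ 0), F i := by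
    symm
    apply Finset.sum_subset (Finset.filter_subset _ _)
    intro i hi hi'
    rw [Finset.mem_filter, not_and, not_not] at hi'
    exact hF i (Finset.mem_range.mp hi) (hi' hi)
  rw [h1, ← Finset.sum_fiberwise_of_maps_to (t := range l) (g := τ)]
  · refine Finset.sum_congr rfl fun s _ => ?_
    rw [Finset.filter_filter]
  · intro i hi
    rw [Finset.mem_filter, Finset.mem_range] at hi
    exact Finset.mem_range.mpr (hτ i hi.1 hi.2)

private lemma rp_ar (N n : ℕ) (F G : ℕ → ℝ) (B : ℝ) (hN : 1 ≤ N)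
    (h : ∀ m ∈ Ioc n (n + N), F m - G m ≤ B) :
    ar 1 N n F - ar 1 N n G ≤ B := by
  unfold ar
  have hN' : (0 : ℝ) < N := by exact_mod_cast hN
  have hf : (Ioc n (n + N)).filter (fun m => 1 ∣ m) = Ioc n (n + N) := by
    apply Finset.filter_true_of_mem
    intro m _
    exact one_dvd m
  rw [hf, ← sub_div, ← sub_mul, ← Finset.sum_sub_distrib, div_le_iff₀ hN']
  have h1 : ∑ m ∈ Ioc n (n + N), (F m - G m) ≤ ∑ m ∈ Ioc n (n + N), B :=
    Finset.sum_le_sum h
  rw [Finset.sum_const, Nat.card_Ioc, nsmul_eq_mul] at h1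
  have h2 : ((n + N - n : ℕ) : ℝ) = N := by
    rw [Nat.add_sub_cancel_left]
  rw [h2] at h1
  push_cast
  linarith

theorem pf_RP (hRB : T_RB) (hRU : T_RU) : T_RP := by
  intro th Lam σ r₀ P hth hth1 hLam hσ hP hPL
  have hP' : (0 : ℝ) < P := by exact_mod_cast hP
  have hth3 : 0 < th ^ 3 := by positivity
  refine ⟨min 1 (th * σ / (8 * P)), ⌈200 * P / (th ^ 3 * σ)⌉₊ + 2 * P, ?_, ?_⟩
  · exact lt_min one_pos (by positivity)
  intro lam M N n l g b τ hlam hM hN hsl hdf _ hcell s hs j hj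
  set δ := min 1 (th * σ / (8 * P)) with hδ
  have hδ1 : δ ≤ 1 := min_le_left _ _
  have hδ2 : δ ≤ th * σ / (8 * P) := min_le_right _ _
  have hδ0 : 0 < δ := lt_min one_pos (by positivity)
  -- sizes
  set P₀ := ⌈200 * P / (th ^ 3 * σ)⌉₊ + 2 * P with hP₀
  have hP₀P : 2 * P ≤ N := by
    calc 2 * P ≤ P₀ := by omega
      _ = P₀ * 1 := (mul_one _).symm
      _ ≤ P₀ * M := Nat.mul_le_mul_left _ hM
      _ ≤ N := hN
  set ℓ := N / P with hℓ
  have hℓ1 : 1 ≤ ℓ := by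
    rw [hℓ, Nat.one_le_div_iff (by omega)]
    omega
  have hℓN : P * ℓ ≤ N := Nat.mul_div_le N P
  have hNℓ : N ≤ 2 * P * ℓ := by
    have h1 : N < P * (ℓ + 1) := by
      have := Nat.lt_mul_div_succ N (show 0 < P by omega)
      simpa [hℓ] using this
    have h2 : P ≤ P * ℓ := Nat.le_mul_of_pos_right _ hℓ1
    nlinarith
  have hℓ' : (0 : ℝ) < ℓ := by exact_mod_cast hℓ1
  have hN1 : 1 ≤ N := by omega
  have hN' : (0 : ℝ) < N := by exact_mod_cast hN1
  have hℓNr : (P : ℝ) * ℓ ≤ N := by exact_mod_cast hℓN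
  have hNℓr : (N : ℝ) ≤ 2 * P * ℓ := by exact_mod_cast hNℓ
  have hPMr : (200 * P / (th ^ 3 * σ)) * M ≤ N := by
    have h1 : (200 * P / (th ^ 3 * σ)) ≤ (P₀ : ℝ) := by
      have := Nat.le_ceil (200 * P / (th ^ 3 * σ))
      rw [hP₀]; push_cast
      linarith
    have h2 : ((P₀ * M : ℕ) : ℝ) ≤ N := by exact_mod_cast hN
    push_cast at h2
    have hM' : (0 : ℝ) ≤ M := Nat.cast_nonneg _
    nlinarith
  -- the base point of the piece
  set m₀ := n + j * ℓ with hm₀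
  have hjP : j + 1 ≤ P := hj
  have hend : m₀ + ℓ ≤ n + N := by
    have h1 : (j + 1) * ℓ ≤ P * ℓ := Nat.mul_le_mul_right _ hjP
    rw [hm₀]
    nlinarith
  -- the defect on the piece
  have hRUj := hRU th lam δ δ M N n ℓ m₀ g hth hth1 hlam hM hℓ1 hδ1 (by omega) hend hsl hdf
  have hdfj : df th lam 1 ℓ m₀ g ≤ th * σ := by
    have h1 : (N : ℝ) * (δ + δ) ≤ ℓ * (th * σ / 2) := by
      have h2 : (N : ℝ) * (δ + δ) ≤ (2 * P * ℓ) * (2 * (th * σ / (8 * P))) := by
        apply mul_le_mul hNℓr (by linarith) (by positivity) (by positivity)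
      have h3 : (2 * (P : ℝ) * ℓ) * (2 * (th * σ / (8 * P))) = ℓ * (th * σ / 2) := by
        field_simp; ring
      linarith
    have h4 : 50 / th ^ 2 * M ≤ ℓ * (th * σ / 2) := by
      have h5 : 200 * P * M ≤ N * (th ^ 3 * σ) := by
        have h6 : (200 * P / (th ^ 3 * σ)) * M * (th ^ 3 * σ) ≤ N * (th ^ 3 * σ) :=
          mul_le_mul_of_nonneg_right hPMr (by positivity)
        have h7 : (200 * P / (th ^ 3 * σ)) * M * (th ^ 3 * σ) = 200 * P * M := by
          field_simp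
        linarith
      have h8 : 200 * P * M ≤ (2 * P * ℓ) * (th ^ 3 * σ) :=
        h5.trans (mul_le_mul_of_nonneg_right hNℓr (by positivity))
      have h9 : 100 * (M : ℝ) ≤ ℓ * (th ^ 3 * σ) := by
        have h10 : (2 * (P : ℝ)) * (100 * M) ≤ (2 * P) * (ℓ * (th ^ 3 * σ)) := by linarith
        exact le_of_mul_le_mul_left h10 (by positivity)
      rw [div_mul_eq_mul_div, div_le_iff₀ (by positivity)]
      nlinarith
    have h11 : (ℓ : ℝ) * df th lam 1 ℓ m₀ g ≤ ℓ * (th * σ) := by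
      calc (ℓ : ℝ) * df th lam 1 ℓ m₀ g ≤ N * (δ + δ) + 50 / th ^ 2 * M := hRUj
        _ ≤ ℓ * (th * σ / 2) + ℓ * (th * σ / 2) := add_le_add h1 h4
        _ = ℓ * (th * σ) := by ring
    exact le_of_mul_le_mul_left h11 hℓ'
  -- the norm of `g`
  obtain ⟨_, hEn0, _, _, _, hnm, hfb⟩ := hRB th lam 1 N n hth hlam le_rfl hN1
  have hgnm : g.nm ≤ 2 / th := by
    apply hnm g hN1
    unfold df at hdf
    linarith
  have hgnm0 : 0 ≤ g.nm := Finset.sum_nonneg fun i _ => norm_nonneg _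
  -- the sum with one atom for each cell
  set C : ℕ → Finset ℕ := fun s => (range g.k).filter (fun i => g.c i ≠ 0 ∧ τ i = s) with hC
  set z : ℕ → ℂ := fun s => ∑ i ∈ C s, g.c i * ee ((g.a i - b s) * (m₀ : ℝ)) with hz
  set h : Ex := ⟨l, z, b⟩ with hh
  have hτ : ∀ i < g.k, g.c i ≠ 0 → τ i < l := fun i hi hc => (hcell i hi hc).1
  have hzle : ∀ s, ‖z s‖ ≤ ∑ i ∈ C s, ‖g.c i‖ := by
    intro s
    refine (norm_sum_le _ _).trans (Finset.sum_le_sum fun i _ => ?_)
    rw [norm_mul, norm_ee, mul_one]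
  have hgsplit : g.nm = ∑ s ∈ range l, ∑ i ∈ C s, ‖g.c i‖ := by
    unfold Ex.nm
    exact rp_split g.k l g.c τ (fun i => ‖g.c i‖) (fun i _ h0 => by simp [h0]) hτ
  have hhnm : h.nm = ∑ s ∈ range l, ‖z s‖ := rfl
  have hhg : h.nm ≤ g.nm := by
    rw [hhnm, hgsplit]
    exact Finset.sum_le_sum fun s _ => hzle s
  have hhf : ∀ m : ℕ, ‖h.f m‖ ≤ g.nm := by
    intro m
    refine le_trans ?_ hhg
    rw [hhnm]
    unfold Ex.f
    refine (norm_sum_le _ _).trans (le_of_eq ?_)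
    refine Finset.sum_congr rfl fun s _ => ?_
    rw [norm_mul, norm_ee, mul_one]
  -- the pointwise comparison
  have hpt : ∀ m ∈ Ioc m₀ (m₀ + ℓ), ‖g.f m - h.f m‖ ≤ g.nm * (2 * Real.pi * (Lam / P)) := by
    intro m hm
    rw [Finset.mem_Ioc] at hm
    have h1 : g.f m = ∑ s ∈ range l, ∑ i ∈ C s, g.c i * ee (g.a i * m) := by
      unfold Ex.f
      exact rp_split g.k l g.c τ (fun i => g.c i * ee (g.a i * m))
        (fun i _ h0 => by simp [h0]) hτ
    have h2 : h.f m = ∑ s ∈ range l, ∑ i ∈ C s,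
        g.c i * ee ((g.a i - b s) * (m₀ : ℝ)) * ee (b s * m) := by
      unfold Ex.f
      refine Finset.sum_congr rfl fun s _ => ?_
      change z s * ee (b s * m) = _
      rw [hz, Finset.sum_mul]
    rw [h1, h2, ← Finset.sum_sub_distrib, hgsplit, Finset.sum_mul]
    refine (norm_sum_le _ _).trans (Finset.sum_le_sum fun s _ => ?_)
    rw [← Finset.sum_sub_distrib, Finset.sum_mul]
    refine (norm_sum_le _ _).trans (Finset.sum_le_sum fun i hi => ?_)
    rw [hC, Finset.mem_filter, Finset.mem_range] at hi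
    obtain ⟨hik, hic, his⟩ := hi
    have h3 := (hcell i hik hic).2
    rw [his] at h3
    have h4 : g.c i * ee (g.a i * m) - g.c i * ee ((g.a i - b s) * (m₀ : ℝ)) * ee (b s * m) =
        g.c i * ((ee ((g.a i - b s) * m) - ee ((g.a i - b s) * (m₀ : ℝ))) * ee (b s * m)) := by
      have h5 : g.a i * (m : ℝ) = (g.a i - b s) * m + b s * m := by ring
      rw [h5, ee_add]
      ring
    rw [h4, norm_mul, norm_mul, norm_ee, mul_one]
    refine mul_le_mul_of_nonneg_left ?_ (norm_nonneg _)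
    refine (norm_ee_sub_le _ _).trans ?_
    refine mul_le_mul_of_nonneg_left ?_ (by positivity)
    have h6 : (g.a i - b s) * (m : ℝ) - (g.a i - b s) * (m₀ : ℝ) =
        (g.a i - b s) * ((m - m₀ : ℕ) : ℝ) := by
      rw [Nat.cast_sub hm.1.le]; ring
    rw [h6]
    refine (rp_nd _ _).trans ?_
    have h7 : ((m - m₀ : ℕ) : ℝ) ≤ ℓ := by
      have : m - m₀ ≤ ℓ := by omega
      exact_mod_cast this
    calc ((m - m₀ : ℕ) : ℝ) * nd (g.a i - b s) ≤ ℓ * (Lam / N) :=
          mul_le_mul h7 h3 (nd_nonneg _) hℓ'.le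
      _ ≤ Lam / P := by
          rw [← mul_div_assoc, div_le_div_iff₀ hN' hP']
          nlinarith
  -- the functionals
  set B := (2 + 2 * g.nm) * (g.nm * (2 * Real.pi * (Lam / P))) with hB
  have hJ : J th lam 1 ℓ m₀ g - J th lam 1 ℓ m₀ h ≤ B - 2 * th * (g.nm - h.nm) := by
    have h1 : ar 1 ℓ m₀ (fun m => 2 * lam m * (g.f m).re - ‖g.f m‖ ^ 2) -
        ar 1 ℓ m₀ (fun m => 2 * lam m * (h.f m).re - ‖h.f m‖ ^ 2) ≤ B := by
      apply rp_ar ℓ m₀ _ _ B hℓ1
      intro m hm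
      have hd := hpt m hm
      have hg := (hfb g m).1
      have hh' := hhf m
      have hl := hlam m
      have h2 : |lam m * ((g.f m).re - (h.f m).re)| ≤ ‖g.f m - h.f m‖ := by
        rw [abs_mul, ← Complex.sub_re]
        calc |lam m| * |(g.f m - h.f m).re| ≤ 1 * ‖g.f m - h.f m‖ :=
              mul_le_mul hl (Complex.abs_re_le_norm _) (abs_nonneg _) zero_le_one
          _ = _ := one_mul _
      have h3 : ‖h.f m‖ - ‖g.f m‖ ≤ ‖g.f m - h.f m‖ := by
        have := norm_sub_norm_le (h.f m) (g.f m)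
        rwa [norm_sub_rev] at this
      have h4 : ‖h.f m‖ ^ 2 - ‖g.f m‖ ^ 2 ≤ 2 * g.nm * ‖g.f m - h.f m‖ := by
        have h5 : ‖h.f m‖ ^ 2 - ‖g.f m‖ ^ 2 = (‖h.f m‖ - ‖g.f m‖) * (‖h.f m‖ + ‖g.f m‖) := by ring
        rw [h5]
        calc (‖h.f m‖ - ‖g.f m‖) * (‖h.f m‖ + ‖g.f m‖) ≤
              ‖g.f m - h.f m‖ * (‖h.f m‖ + ‖g.f m‖) :=
              mul_le_mul_of_nonneg_right h3 (by positivity)
          _ ≤ ‖g.f m - h.f m‖ * (2 * g.nm) :=
              mul_le_mul_of_nonneg_left (by linarith) (norm_nonneg _)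
          _ = _ := by ring
      have h6 : (2 + 2 * g.nm) * ‖g.f m - h.f m‖ ≤ B :=
        mul_le_mul_of_nonneg_left hd (by positivity)
      have h7 := le_abs_self (lam m * ((g.f m).re - (h.f m).re))
      nlinarith
    unfold J
    linarith
  have hdfh : 0 ≤ df th lam 1 ℓ m₀ h :=
    (hRB th lam 1 ℓ m₀ hth hlam le_rfl hℓ1).2.2.2.1 h
  have hBle : B ≤ 24 * Real.pi * Lam / (th ^ 2 * P) := by
    have h1 : 2 + 2 * g.nm ≤ 6 / th := by
      rw [le_div_iff₀ hth]
      have h2 : g.nm * th ≤ 2 := by rwa [le_div_iff₀ hth] at hgnm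
      nlinarith
    have h3 : g.nm * (2 * Real.pi * (Lam / P)) ≤ (2 / th) * (2 * Real.pi * (Lam / P)) :=
      mul_le_mul_of_nonneg_right hgnm (by positivity)
    calc B ≤ (6 / th) * ((2 / th) * (2 * Real.pi * (Lam / P))) :=
          mul_le_mul h1 h3 (by positivity) (by positivity)
      _ = 24 * Real.pi * Lam / (th ^ 2 * P) := by field_simp; ring
  have hkey : g.nm - h.nm ≤ σ := by
    unfold df at hdfj hdfh
    have h1 : 2 * th * (g.nm - h.nm) ≤ 24 * Real.pi * Lam / (th ^ 2 * P) + th * σ := by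
      linarith
    have h2 : 100 * Lam ≤ P * (th ^ 3 * σ) := by
      rwa [div_le_iff₀ (by positivity)] at hPL
    have h3 : 24 * Real.pi * Lam / (th ^ 2 * P) ≤ th * σ := by
      rw [div_le_iff₀ (by positivity)]
      have h4 : Real.pi < 4 := by linarith [Real.pi_lt_d2]
      have h5 : th * σ * (th ^ 2 * P) = P * (th ^ 3 * σ) := by ring
      rw [h5]
      nlinarith
    have h6 : 2 * th * (g.nm - h.nm) ≤ 2 * th * σ := by linarith
    exact le_of_mul_le_mul_left h6 (by positivity)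
  have hfin : ∑ i ∈ C s, ‖g.c i‖ - ‖z s‖ ≤ g.nm - h.nm := by
    rw [hgsplit, hhnm, ← Finset.sum_sub_distrib]
    exact Finset.single_le_sum (f := fun s => ∑ i ∈ C s, ‖g.c i‖ - ‖z s‖)
      (fun s _ => sub_nonneg.mpr (hzle s)) (Finset.mem_range.mpr hs)
  have hlast : ∑ i ∈ C s, ‖g.c i‖ - σ ≤ ‖z s‖ := by linarith
  exact hlast

end Pool.Agent.H23.G3
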